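import Mathlib

set_option autoImplicit false

/-!
# The degree-sequence condition for families of subgraphs of `K_{n,n}` fails

A subgraph `F` of `K_{n,n}` with sides `U = Fin n` and `V = Fin n` is identified with its edge set,
a `Finset (Fin n × Fin n)`; the pair `(u, v)` is the edge joining `u ∈ U` and `v ∈ V`.

The counterexample has `k = 3` and `n = 5`; the degrees in `V` are `(3,3,3,5,3)`, `(2,2,2,5,2)` and
`(0,0,0,1,0)`, so that `r = (17, 13, 1)`.
-/

namespace Pool.Agent.Results.MP_2568f3_co.Disproof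

open Finset

/-- The degree `deg_F(v)` of the vertex `v ∈ V` in the subgraph `F` of `K_{n,n}`. -/
def deg {n : ℕ} (F : Finset (Fin n × Fin n)) (v : Fin n) : ℕ := (F.filter fun e => e.2 = v).card

/-- The rearrangement of a sequence in non-decreasing order (`Tuple.sort c` is the permutation of
the indices which sorts `c`). -/
def incr {k : ℕ} (c : Fin k → ℕ) : Fin k → ℕ := c ∘ Tuple.sort c

/-- The sum of the first `j` terms of the non-decreasing rearrangement of `c`, that is, the sum
`∑_{i ≤ j}` in the 1-based notation of the problem. -/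
def partialSum {k : ℕ} (c : Fin k → ℕ) (j : ℕ) : ℕ := ∑ i : Fin k with i.val < j, incr c i

lemma incr_mono {k : ℕ} (c : Fin k → ℕ) : Monotone (incr c) := Tuple.monotone_sort c

/-- the degrees of the counterexample -/
def a : Fin 3 → Fin 5 → ℕ := ![![3, 3, 3, 5, 3], ![2, 2, 2, 5, 2], ![0, 0, 0, 1, 0]]

/-- the counterexample -/
def F (i : Fin 3) : Finset (Fin 5 × Fin 5) := univ.filter fun e => e.1.val < a i e.2

lemma card_F : ∀ i, (F i).card = ![17, 13, 1] i := by decide

lemma deg_F : ∀ i v, deg (F i) v = a i v := by decide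

lemma partialSum_all (c : Fin 3 → ℕ) : partialSum c 3 = c 0 + c 1 + c 2 := by
  have h1 : partialSum c 3 = ∑ i : Fin 3, incr c i := by
    unfold partialSum
    congr 1
  rw [h1]
  unfold incr
  have h2 : ∑ i : Fin 3, (c ∘ Tuple.sort c) i = ∑ i : Fin 3, c i :=
    Equiv.sum_comp (Tuple.sort c) c
  rw [h2, Fin.sum_univ_three]

lemma partialSum_one (c : Fin 3 → ℕ) : partialSum c 1 = incr c 0 := by
  unfold partialSum
  have : (univ.filter fun i : Fin 3 => i.val < 1) = {0} := by decide
  rw [this, sum_singleton]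

lemma partialSum_two (c : Fin 3 → ℕ) : partialSum c 2 + incr c 2 = c 0 + c 1 + c 2 := by
  rw [← partialSum_all]
  unfold partialSum
  have h2 : (univ.filter fun i : Fin 3 => i.val < 2) = {0, 1} := by decide
  have h3 : (univ.filter fun i : Fin 3 => i.val < 3) = {0, 1, 2} := by decide
  rw [h2, h3]
  rw [sum_pair (by decide), sum_insert (by decide), sum_pair (by decide)]
  ring

lemma hypothesis (j : ℕ) (h1 : 1 ≤ j) (h3 : j ≤ 3) :
    j * (j - 1) * 5 < partialSum (fun i => (F i).card) j := by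
  have hF : (fun i => (F i).card) = ![17, 13, 1] := by
    funext i; exact card_F i
  rw [hF]
  have hb : ∀ i : Fin 3, 1 ≤ (![17, 13, 1] : Fin 3 → ℕ) i ∧ (![17, 13, 1] : Fin 3 → ℕ) i ≤ 17 := by
    decide
  interval_cases j
  · rw [partialSum_one]
    have := (hb (Tuple.sort (![17, 13, 1] : Fin 3 → ℕ) 0)).1
    unfold incr
    simp only [Function.comp]
    omega
  · have h := partialSum_two (![17, 13, 1] : Fin 3 → ℕ)
    have h' : incr (![17, 13, 1] : Fin 3 → ℕ) 2 ≤ 17 :=
      (hb (Tuple.sort (![17, 13, 1] : Fin 3 → ℕ) 2)).2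
    have h'' : (![17, 13, 1] : Fin 3 → ℕ) 0 + (![17, 13, 1] : Fin 3 → ℕ) 1 +
      (![17, 13, 1] : Fin 3 → ℕ) 2 = 31 := by decide
    omega
  · rw [partialSum_all]
    decide

/-- **The implication fails for `k = 3` and `n = 5`**: there are three subgraphs `F 0, F 1, F 2` of
`K_{5,5}` whose sizes `r` satisfy `∑_{i ≤ j} r⃗_i > j (j - 1) n` for `1 ≤ j ≤ 3`, but for all
distinct vertices `u 0, u 1, u 2 ∈ V` some `j` with `1 ≤ j ≤ 3` has
`∑_{i ≤ j} b⃗_i ≤ j (j - 1)`, where `b i = deg_{F i} (u i)`. -/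
theorem result :
    ∃ (k n : ℕ) (F : Fin k → Finset (Fin n × Fin n)), 1 ≤ k ∧ 1 ≤ n ∧
      (∀ j, 1 ≤ j → j ≤ k → j * (j - 1) * n < partialSum (fun i => (F i).card) j) ∧
      ∀ u : Fin k → Fin n, Function.Injective u →
        ∃ j, 1 ≤ j ∧ j ≤ k ∧ partialSum (fun i => deg (F i) (u i)) j ≤ j * (j - 1) := by
  refine ⟨3, 5, F, by norm_num, by norm_num, hypothesis, ?_⟩
  intro u hu
  by_cases h : u 2 = 3
  · refine ⟨3, by norm_num, le_refl _, ?_⟩
    rw [partialSum_all, deg_F, deg_F, deg_F, h]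
    have h0 : u 0 ≠ 3 := fun h0 => absurd (hu (h0.trans h.symm)) (by decide)
    have h1 : u 1 ≠ 3 := fun h1 => absurd (hu (h1.trans h.symm)) (by decide)
    have k0 : ∀ v : Fin 5, v ≠ 3 → a 0 v = 3 := by decide
    have k1 : ∀ v : Fin 5, v ≠ 3 → a 1 v = 2 := by decide
    have k2 : a 2 3 = 1 := by decide
    rw [k0 _ h0, k1 _ h1, k2]
  · refine ⟨1, le_refl _, by norm_num, ?_⟩
    rw [partialSum_one]
    set b : Fin 3 → ℕ := fun i => deg (F i) (u i) with hb
    have hb2 : b 2 = 0 := by
      have k2 : ∀ v : Fin 5, v ≠ 3 → a 2 v = 0 := by decide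
      show deg (F 2) (u 2) = 0
      rw [deg_F]; exact k2 _ h
    have h1 : incr b 0 ≤ incr b ((Tuple.sort b).symm 2) := incr_mono b (Fin.zero_le _)
    have h2 : incr b ((Tuple.sort b).symm 2) = b 2 := by
      unfold incr
      simp
    omega

end Pool.Agent.Results.MP_2568f3_co.Disproof
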